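import Pool.Agent.Work.MP_c72427_an.K.Mono

/-!
# A star isomorphism of von Neumann algebras is continuous for the 2-norms of
separating vectors, on bounded sets (MP_c72427_an)
-/

set_option autoImplicit false

open Filter Topology
open scoped InnerProductSpace ComplexOrder Ring

namespace MPc72427.K

variable {H : Type*} [NormedAddCommGroup H] [InnerProductSpace ℂ H] [CompleteSpace H]
variable {K : Type*} [NormedAddCommGroup K] [InnerProductSpace ℂ K] [CompleteSpace K]

/-- the resolvent `(1 + s)⁻¹` -/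
noncomputable def res (s : H →L[ℂ] H) : H →L[ℂ] H := (1 + s)⁻¹ʳ

theorem one_add_sp {s : H →L[ℂ] H} (hs : 0 ≤ s) : IsStrictlyPositive (1 + s) :=
  IsStrictlyPositive.add_nonneg ⟨zero_le_one, isUnit_one⟩ hs

theorem mul_res {s : H →L[ℂ] H} (hs : 0 ≤ s) : (1 + s) * res s = 1 :=
  Ring.mul_inverse_cancel _ (one_add_sp hs).isUnit

theorem res_mul {s : H →L[ℂ] H} (hs : 0 ≤ s) : res s * (1 + s) = 1 :=
  Ring.inverse_mul_cancel _ (one_add_sp hs).isUnit

theorem res_eq {s b : H →L[ℂ] H} (hs : 0 ≤ s) (h : (1 + s) * b = 1) : res s = b := by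
  calc res s = res s * ((1 + s) * b) := by rw [h, mul_one]
    _ = b := by rw [← mul_assoc, res_mul hs, one_mul]

theorem res_anti {s t : H →L[ℂ] H} (hs : 0 ≤ s) (hst : s ≤ t) : res t ≤ res s :=
  CStarAlgebra.ringInverse_le_ringInverse (add_le_add_right hst 1) (one_add_sp hs)

omit [CompleteSpace H] in
theorem res_zero : res (0 : H →L[ℂ] H) = 1 := by
  simp [res]

theorem res_le_one {s : H →L[ℂ] H} (hs : 0 ≤ s) : res s ≤ 1 := by
  have := res_anti le_rfl hs
  rwa [res_zero] at this

theorem res_nonneg {s : H →L[ℂ] H} (hs : 0 ≤ s) : 0 ≤ res s := by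
  have h := (one_add_sp hs)
  have h1 : res s = res s * (1 + s) * star (res s) := by
    have hsa : IsSelfAdjoint (1 + s) := IsSelfAdjoint.of_nonneg h.nonneg
    have h2 : star (res s) * (1 + s) = 1 := by
      have := congrArg star (mul_res hs)
      rwa [star_mul, star_one, hsa.star_eq] at this
    have h3 : star (res s) = res s := by
      calc star (res s) = star (res s) * ((1 + s) * res s) := by rw [mul_res hs, mul_one]
        _ = res s := by rw [← mul_assoc, h2, one_mul]
    rw [res_mul hs, one_mul, h3]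
  rw [h1]
  exact star_right_conjugate_nonneg h.nonneg _

/-- membership of the resolvent -/
theorem res_mem (P : VonNeumannAlgebra H) {s : H →L[ℂ] H} (hs : 0 ≤ s) (hsP : s ∈ P) :
    res s ∈ P := by
  rw [← VonNeumannAlgebra.commutant_commutant P, VonNeumannAlgebra.mem_commutant_iff]
  intro g hg
  rw [VonNeumannAlgebra.mem_commutant_iff] at hg
  have h1 : (1 + s) * g = g * (1 + s) := by
    rw [add_mul, mul_add, one_mul, mul_one, hg s hsP]
  calc g * res s = res s * ((1 + s) * g) * res s := by rw [← mul_assoc, res_mul hs, one_mul]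
    _ = res s * g * ((1 + s) * res s) := by rw [h1]; simp only [mul_assoc]
    _ = res s * g := by rw [mul_res hs, mul_one]

/-- membership of the square root -/
theorem sqrt_mem (P : VonNeumannAlgebra H) {s : H →L[ℂ] H} (hsP : s ∈ P) :
    CFC.sqrt s ∈ P := by
  rw [← VonNeumannAlgebra.commutant_commutant P, VonNeumannAlgebra.mem_commutant_iff]
  intro g hg
  rw [VonNeumannAlgebra.mem_commutant_iff] at hg
  have h1 : Commute s g := hg s hsP
  exact (h1.cfcₙ_nnreal _).symm.eq

/-- `‖s x‖²`-type identities: the square root of a positive operator. -/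
theorem re_inner_eq_sqrt {T : H →L[ℂ] H} (hT : 0 ≤ T) (x : H) :
    RCLike.re (inner ℂ (T x) x) = ‖CFC.sqrt T x‖ ^ 2 := by
  set S := CFC.sqrt T with hS
  have hSS : S * S = T := CFC.sqrt_mul_sqrt_self T hT
  have hS0 : 0 ≤ S := CFC.sqrt_nonneg T
  have hsa : IsSelfAdjoint S := IsSelfAdjoint.of_nonneg hS0
  have h1 : T x = S (S x) := by rw [← hSS]; rfl
  rw [h1, ← ContinuousLinearMap.adjoint_inner_right,
      ← ContinuousLinearMap.star_eq_adjoint, hsa.star_eq, inner_self_eq_norm_sq]

/-- upper bound for `1 - (1+s)⁻¹` -/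
theorem re_inner_one_sub_res {s : H →L[ℂ] H} (hs : 0 ≤ s) (x : H) :
    RCLike.re (inner ℂ ((1 - res s) x) x) ≤ RCLike.re (inner ℂ (s x) x) := by
  have h : (1 - res s) ≤ s := by
    have hb := res_nonneg hs
    have h1 : s - (1 - res s) = star s * res s * s := by
      have hsa : IsSelfAdjoint s := IsSelfAdjoint.of_nonneg hs
      have h2 : s * res s = 1 - res s := by
        have := mul_res hs
        rw [add_mul, one_mul] at this
        exact eq_sub_of_add_eq' this
      have h3 : res s * s = 1 - res s := by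
        have := res_mul hs
        rw [mul_add, mul_one] at this
        exact eq_sub_of_add_eq' this
      rw [hsa.star_eq, h2, sub_mul, one_mul, h3]
    rw [← sub_nonneg, h1]
    exact star_left_conjugate_nonneg hb _
  exact re_inner_mono h x

/-- lower bound for `1 - (1+t)⁻¹` when `0 ≤ t ≤ 1` -/
theorem re_inner_res_le {t : H →L[ℂ] H} (ht : 0 ≤ t) (ht1 : t ≤ 1) (x : H) :
    RCLike.re (inner ℂ (res t x) x) ≤ ‖x‖ ^ 2 - RCLike.re (inner ℂ (t x) x) / 4 := by
  set y := res t x with hy
  have hx : x = y + t y := by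
    have := congrArg (fun S : H →L[ℂ] H => S x) (mul_res ht)
    simpa [hy] using this.symm
  set u := CFC.sqrt t with hu
  have huu : u * u = t := CFC.sqrt_mul_sqrt_self t ht
  have hcomm : ∀ z, u (t z) = t (u z) := by
    intro z
    rw [← huu]
    rfl
  have hnt : ‖t‖ ≤ 1 := (CStarAlgebra.norm_le_one_iff_of_nonneg t ht).mpr ht1
  have h1 : RCLike.re (inner ℂ (t x) x) ≤ 4 * ‖u y‖ ^ 2 := by
    rw [re_inner_eq_sqrt ht, ← hu]
    have h2 : u x = u y + t (u y) := by rw [hx, map_add, hcomm]
    have h3 : ‖u x‖ ≤ 2 * ‖u y‖ := by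
      rw [h2]
      calc ‖u y + t (u y)‖ ≤ ‖u y‖ + ‖t (u y)‖ := norm_add_le _ _
        _ ≤ ‖u y‖ + 1 * ‖u y‖ := by
            gcongr
            exact t.le_of_opNorm_le hnt _
        _ = 2 * ‖u y‖ := by ring
    calc ‖u x‖ ^ 2 ≤ (2 * ‖u y‖) ^ 2 := by gcongr
      _ = 4 * ‖u y‖ ^ 2 := by ring
  have h4 : RCLike.re (inner ℂ y x) = ‖x‖ ^ 2 - RCLike.re (inner ℂ (t y) x) := by
    have h6 : RCLike.re (inner ℂ x x) = RCLike.re (inner ℂ y x) + RCLike.re (inner ℂ (t y) x) := by
      rw [← map_add, ← inner_add_left, ← hx]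
    rw [inner_self_eq_norm_sq] at h6
    linarith
  have h5 : ‖u y‖ ^ 2 ≤ RCLike.re (inner ℂ (t y) x) := by
    have : RCLike.re (inner ℂ (t y) x) = ‖u y‖ ^ 2 + ‖t y‖ ^ 2 := by
      conv_lhs => rw [hx]
      rw [inner_add_right, map_add, re_inner_eq_sqrt ht, inner_self_eq_norm_sq]
    rw [this]
    nlinarith [sq_nonneg ‖t y‖]
  rw [h4]
  linarith

end MPc72427.K
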