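import Pool.Agent.Work.MP_c72427_an.K.AC

/-!
# A star isomorphism of von Neumann algebras is 2-norm continuous on bounded sets
(MP_c72427_an)

`P`, `N` von Neumann algebras, `ξ` a separating vector of `P`, `η` any vector. If `x` runs
through a bounded set of `P` and `‖x ξ‖ → 0` then `‖θ x η‖ → 0`.
-/

set_option autoImplicit false

open Filter Topology
open scoped InnerProductSpace ComplexOrder Ring

namespace MPc72427.K

variable {H : Type*} [NormedAddCommGroup H] [InnerProductSpace ℂ H] [CompleteSpace H]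
variable {K : Type*} [NormedAddCommGroup K] [InnerProductSpace ℂ K] [CompleteSpace K]

theorem map_nonneg {P : VonNeumannAlgebra H} {N : VonNeumannAlgebra K}
    (θ : P.toStarSubalgebra ≃⋆ₐ[ℂ] N.toStarSubalgebra) (x : P.toStarSubalgebra)
    (hx : 0 ≤ (x : H →L[ℂ] H)) : 0 ≤ (θ x : K →L[ℂ] K) := by
  have hs : CFC.sqrt (x : H →L[ℂ] H) ∈ P.toStarSubalgebra := sqrt_mem P x.2
  set s : P.toStarSubalgebra := ⟨CFC.sqrt (x : H →L[ℂ] H), hs⟩ with hsdef
  have h0 : 0 ≤ CFC.sqrt (x : H →L[ℂ] H) := CFC.sqrt_nonneg _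
  have hsa : star (CFC.sqrt (x : H →L[ℂ] H)) = CFC.sqrt (x : H →L[ℂ] H) :=
    (IsSelfAdjoint.of_nonneg h0).star_eq
  have h1 : x = star s * s := by
    apply Subtype.ext
    change (x : H →L[ℂ] H) = star (CFC.sqrt (x : H →L[ℂ] H)) * CFC.sqrt (x : H →L[ℂ] H)
    rw [hsa, CFC.sqrt_mul_sqrt_self _ hx]
  rw [h1, map_mul, map_star]
  exact star_mul_self_nonneg (θ s : K →L[ℂ] K)

theorem map_mono {P : VonNeumannAlgebra H} {N : VonNeumannAlgebra K}
    (θ : P.toStarSubalgebra ≃⋆ₐ[ℂ] N.toStarSubalgebra) {x y : P.toStarSubalgebra}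
    (h : (x : H →L[ℂ] H) ≤ y) : (θ x : K →L[ℂ] K) ≤ θ y := by
  have h1 : 0 ≤ ((y - x : P.toStarSubalgebra) : H →L[ℂ] H) := sub_nonneg.mpr h
  have h2 := map_nonneg θ _ h1
  rw [map_sub] at h2
  exact sub_nonneg.mp h2

theorem map_res {P : VonNeumannAlgebra H} {N : VonNeumannAlgebra K}
    (θ : P.toStarSubalgebra ≃⋆ₐ[ℂ] N.toStarSubalgebra) (s : P.toStarSubalgebra)
    (hs : 0 ≤ (s : H →L[ℂ] H)) (b : P.toStarSubalgebra) (hb : (b : H →L[ℂ] H) = res (s : H →L[ℂ] H)) :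
    (θ b : K →L[ℂ] K) = res (θ s : K →L[ℂ] K) := by
  have h1 : (1 + s) * b = 1 := by
    apply Subtype.ext
    change (1 + (s : H →L[ℂ] H)) * (b : H →L[ℂ] H) = 1
    rw [hb, mul_res hs]
  have h2 : (1 + θ s) * θ b = 1 := by
    rw [← map_one θ, ← map_add, ← map_mul, h1]
  have h3 : (1 + (θ s : K →L[ℂ] K)) * (θ b : K →L[ℂ] K) = 1 := congrArg Subtype.val h2
  exact (res_eq (map_nonneg θ s hs) h3).symm

/-- The core: positive contractions which are small at `ξ` have small images at `η`. -/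
theorem core {P : VonNeumannAlgebra H} {N : VonNeumannAlgebra K}
    (θ : P.toStarSubalgebra ≃⋆ₐ[ℂ] N.toStarSubalgebra) (ξ : H) (η : K)
    (hξ : ∀ x : P.toStarSubalgebra, (x : H →L[ℂ] H) ξ = 0 → x = 0)
    (a : ℕ → P.toStarSubalgebra) (h0 : ∀ n, 0 ≤ (a n : H →L[ℂ] H))
    (h1 : ∀ n, (a n : H →L[ℂ] H) ≤ 1)
    (hsmall : ∀ n, RCLike.re (inner ℂ ((a n : H →L[ℂ] H) ξ) ξ) ≤ (1 / 2 : ℝ) ^ n)
    (c : ℝ) (hc : 0 < c)
    (hbig : ∀ n, c ≤ RCLike.re (inner ℂ ((θ (a n) : K →L[ℂ] K) η) η)) : False := by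
  classical
  -- partial sums
  let s : ℕ → ℕ → P.toStarSubalgebra := fun m k => ∑ i ∈ Finset.range k, a (m + i)
  have hsv : ∀ m k, (s m k : H →L[ℂ] H) = ∑ i ∈ Finset.range k, (a (m + i) : H →L[ℂ] H) := by
    intro m k
    simp only [s]
    push_cast
    rfl
  have hs0 : ∀ m k, 0 ≤ (s m k : H →L[ℂ] H) := by
    intro m k
    rw [hsv]
    exact Finset.sum_nonneg fun i _ => h0 _
  have hsmono : ∀ m, Monotone fun k => (s m k : H →L[ℂ] H) := by
    intro m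
    refine monotone_nat_of_le_succ fun k => ?_
    rw [hsv, hsv, Finset.sum_range_succ]
    exact le_add_of_nonneg_right (h0 _)
  have hsshift : ∀ m k, (s (m + 1) k : H →L[ℂ] H) ≤ s m (k + 1) := by
    intro m k
    rw [hsv, hsv, Finset.sum_range_succ']
    have : ∀ i, m + 1 + i = m + (i + 1) := fun i => by ring
    simp only [this]
    exact le_add_of_nonneg_right (h0 _)
  have hsξ : ∀ m k, RCLike.re (inner ℂ ((s m k : H →L[ℂ] H) ξ) ξ) ≤ 2 * (1 / 2 : ℝ) ^ m := by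
    intro m k
    rw [hsv, sum_apply, sum_inner, map_sum]
    calc ∑ i ∈ Finset.range k, RCLike.re (inner ℂ ((a (m + i) : H →L[ℂ] H) ξ) ξ)
        ≤ ∑ i ∈ Finset.range k, (1 / 2 : ℝ) ^ (m + i) := Finset.sum_le_sum fun i _ => hsmall _
      _ = (1 / 2 : ℝ) ^ m * ∑ i ∈ Finset.range k, (1 / 2 : ℝ) ^ i := by
          rw [Finset.mul_sum]
          exact Finset.sum_congr rfl fun i _ => pow_add _ _ _
      _ ≤ (1 / 2 : ℝ) ^ m * 2 := by
          gcongr
          have hg : Summable fun i : ℕ => (1 / 2 : ℝ) ^ i := summable_geometric_two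
          have := hg.sum_le_tsum (Finset.range k) (fun i _ => by positivity)
          rwa [tsum_geometric_two] at this
      _ = 2 * (1 / 2 : ℝ) ^ m := by ring
  -- c m k = 1 - res (s m k)
  let cc : ℕ → ℕ → H →L[ℂ] H := fun m k => 1 - res (s m k : H →L[ℂ] H)
  have hcc0 : ∀ m k, 0 ≤ cc m k := fun m k => sub_nonneg.mpr (res_le_one (hs0 m k))
  have hcc1 : ∀ m k, cc m k ≤ 1 := fun m k => sub_le_self _ (res_nonneg (hs0 m k))
  have hccmono : ∀ m, Monotone (cc m) := fun m k l hkl =>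
    sub_le_sub_left (res_anti (hs0 m k) (hsmono m hkl)) 1
  have hccshift : ∀ m k, cc (m + 1) k ≤ cc m (k + 1) := fun m k =>
    sub_le_sub_left (res_anti (hs0 _ _) (hsshift m k)) 1
  have hccP : ∀ m k, cc m k ∈ P := fun m k =>
    sub_mem (one_mem P) (res_mem P (hs0 m k) (s m k).2)
  choose C hCt hCub hCl using fun m => exists_strong_limit (cc m) (hccmono m) (hcc0 m) (hcc1 m)
  have hCP : ∀ m, C m ∈ P := fun m => mem_of_strong_limit P (cc m) (hccP m) (C m) (hCt m)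
  have hC0 : ∀ m, 0 ≤ C m := fun m => (hcc0 m 0).trans (hCub m 0)
  have hC1 : ∀ m, C m ≤ 1 := fun m => hCl m 1 (hcc1 m)
  have hCanti : ∀ m, C (m + 1) ≤ C m := fun m =>
    hCl (m + 1) (C m) fun k => (hccshift m k).trans (hCub m (k + 1))
  have hCξ : ∀ m, RCLike.re (inner ℂ (C m ξ) ξ) ≤ 2 * (1 / 2 : ℝ) ^ m := by
    intro m
    have ht : Tendsto (fun k => RCLike.re (inner ℂ (cc m k ξ) ξ)) atTop
        (𝓝 (RCLike.re (inner ℂ (C m ξ) ξ))) :=
      (RCLike.continuous_re.tendsto _).comp ((hCt m ξ).inner tendsto_const_nhds)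
    refine le_of_tendsto' ht fun k => ?_
    exact (re_inner_one_sub_res (hs0 m k) ξ).trans (hsξ m k)
  -- d m = 1 - C m increases to 1
  let D : ℕ → H →L[ℂ] H := fun m => 1 - C m
  have hD0 : ∀ m, 0 ≤ D m := fun m => sub_nonneg.mpr (hC1 m)
  have hD1 : ∀ m, D m ≤ 1 := fun m => sub_le_self _ (hC0 m)
  have hDmono : Monotone D := monotone_nat_of_le_succ fun m => sub_le_sub_left (hCanti m) 1
  have hDP : ∀ m, D m ∈ P := fun m => sub_mem (one_mem P) (hCP m)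
  obtain ⟨D', hDt, hDub, hDl⟩ := exists_strong_limit D hDmono hD0 hD1
  have hD'P : D' ∈ P := mem_of_strong_limit P D hDP D' hDt
  have hD'1 : D' ≤ 1 := hDl 1 hD1
  have hD'eq : D' = 1 := by
    have hpos : 0 ≤ 1 - D' := sub_nonneg.mpr hD'1
    have hle : RCLike.re (inner ℂ ((1 - D') ξ) ξ) ≤ 0 := by
      have hall : ∀ m, RCLike.re (inner ℂ ((1 - D') ξ) ξ) ≤ 2 * (1 / 2 : ℝ) ^ m := by
        intro m
        have h5 : 1 - D' ≤ C m := by
          have := sub_le_sub_left (hDub m) 1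
          simpa [D] using this
        exact (re_inner_mono h5 ξ).trans (hCξ m)
      have ht : Tendsto (fun m : ℕ => 2 * (1 / 2 : ℝ) ^ m) atTop (𝓝 (2 * 0)) :=
        (tendsto_pow_atTop_nhds_zero_of_lt_one (by norm_num) (by norm_num)).const_mul 2
      rw [mul_zero] at ht
      exact ge_of_tendsto' ht hall
    have hz := apply_eq_zero_of_pos _ hpos ξ hle
    have hmem : (1 - D') ∈ P.toStarSubalgebra := sub_mem (one_mem P) hD'P
    have h6 := hξ ⟨1 - D', hmem⟩ hz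
    have h7 : (1 - D') = 0 := congrArg Subtype.val h6
    exact (sub_eq_zero.mp h7).symm
  -- images
  let DD : ℕ → P.toStarSubalgebra := fun m => ⟨D m, hDP m⟩
  let E : ℕ → K →L[ℂ] K := fun m => (θ (DD m) : K →L[ℂ] K)
  have hE0 : ∀ m, 0 ≤ E m := fun m => map_nonneg θ (DD m) (hD0 m)
  have hE1 : ∀ m, E m ≤ 1 := by
    intro m
    have h8 : ((DD m : P.toStarSubalgebra) : H →L[ℂ] H) ≤ ((1 : P.toStarSubalgebra) : H →L[ℂ] H) :=
      hD1 m
    have h9 := map_mono θ h8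
    rw [map_one] at h9
    exact h9
  have hEmono : Monotone E := fun m n hmn => map_mono θ (x := DD m) (y := DD n) (hDmono hmn)
  obtain ⟨E', hEt, hEub, -⟩ := exists_strong_limit E hEmono hE0 hE1
  have hE'N : E' ∈ N := mem_of_strong_limit N E (fun m => (θ (DD m)).2) E' hEt
  let z : P.toStarSubalgebra := θ.symm ⟨E', hE'N⟩
  have hz : ∀ m, D m ≤ (z : H →L[ℂ] H) := by
    intro m
    have h10 := map_mono θ.symm (x := θ (DD m)) (y := ⟨E', hE'N⟩) (hEub m)
    rw [StarAlgEquiv.symm_apply_apply] at h10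
    exact h10
  have hz1 : (1 : H →L[ℂ] H) ≤ (z : H →L[ℂ] H) := by
    rw [← hD'eq]
    exact hDl _ hz
  have hE'1 : (1 : K →L[ℂ] K) ≤ E' := by
    have h11 : ((1 : P.toStarSubalgebra) : H →L[ℂ] H) ≤ (z : H →L[ℂ] H) := hz1
    have h12 := map_mono θ h11
    rw [map_one, StarAlgEquiv.apply_symm_apply] at h12
    exact h12
  -- the contradiction
  have hEη : ∀ m, RCLike.re (inner ℂ (E m η) η) ≤ ‖η‖ ^ 2 - c / 4 := by
    intro m
    have hmem : res (a m : H →L[ℂ] H) ∈ P.toStarSubalgebra := res_mem P (h0 m) (a m).2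
    have h13 : ((DD m : P.toStarSubalgebra) : H →L[ℂ] H) ≤
        ((⟨res (a m : H →L[ℂ] H), hmem⟩ : P.toStarSubalgebra) : H →L[ℂ] H) := by
      have h14 : (s m 1 : H →L[ℂ] H) = a m := by rw [hsv]; simp
      have h15 := sub_le_sub_left (hCub m 1) 1
      simp only [cc, h14, sub_sub_cancel] at h15
      exact h15
    have h16 := map_mono θ h13
    rw [map_res θ (a m) (h0 m) ⟨res (a m : H →L[ℂ] H), hmem⟩ rfl] at h16
    have h17 : (θ (a m) : K →L[ℂ] K) ≤ 1 := by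
      have h18 : (a m : H →L[ℂ] H) ≤ ((1 : P.toStarSubalgebra) : H →L[ℂ] H) := h1 m
      have h19 := map_mono θ h18
      rw [map_one] at h19
      exact h19
    have h20 := re_inner_res_le (map_nonneg θ (a m) (h0 m)) h17 η
    have h21 := re_inner_mono h16 η
    have h22 := hbig m
    linarith
  have hlim : Tendsto (fun m => RCLike.re (inner ℂ (E m η) η)) atTop
      (𝓝 (RCLike.re (inner ℂ (E' η) η))) :=
    (RCLike.continuous_re.tendsto _).comp ((hEt η).inner tendsto_const_nhds)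
  have hup := le_of_tendsto' hlim hEη
  have hlow := re_inner_mono hE'1 η
  have hone : RCLike.re (inner ℂ ((1 : K →L[ℂ] K) η) η) = ‖η‖ ^ 2 := by
    change RCLike.re (inner ℂ η η) = _
    rw [inner_self_eq_norm_sq]
  rw [hone] at hlow
  linarith

theorem re_inner_star_mul_self {P : VonNeumannAlgebra H} (x : P.toStarSubalgebra) (ξ : H) :
    RCLike.re (inner ℂ (((star x * x : P.toStarSubalgebra) : H →L[ℂ] H) ξ) ξ) =
      ‖(x : H →L[ℂ] H) ξ‖ ^ 2 := by
  have h : ((star x * x : P.toStarSubalgebra) : H →L[ℂ] H) ξ =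
      (ContinuousLinearMap.adjoint (x : H →L[ℂ] H)) ((x : H →L[ℂ] H) ξ) := rfl
  rw [h, ContinuousLinearMap.adjoint_inner_left, inner_self_eq_norm_sq]

/-- A star isomorphism of von Neumann algebras is 2-norm continuous on bounded sets. -/
theorem cont {P : VonNeumannAlgebra H} {N : VonNeumannAlgebra K}
    (θ : P.toStarSubalgebra ≃⋆ₐ[ℂ] N.toStarSubalgebra) (ξ : H) (η : K)
    (hξ : ∀ x : P.toStarSubalgebra, (x : H →L[ℂ] H) ξ = 0 → x = 0) (C : ℝ) {ε : ℝ} (hε : 0 < ε) :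
    ∃ δ : ℝ, 0 < δ ∧ ∀ x : P.toStarSubalgebra, ‖(x : H →L[ℂ] H)‖ ≤ C →
      ‖(x : H →L[ℂ] H) ξ‖ ≤ δ → ‖(θ x : K →L[ℂ] K) η‖ ≤ ε := by
  by_contra hcon
  push Not at hcon
  have hpos : ∀ n : ℕ, (0 : ℝ) < (1 / 2 : ℝ) ^ n := fun n => by positivity
  choose x hxC hxξ hxη using fun n : ℕ => hcon ((1 / 2 : ℝ) ^ n) (hpos n)
  set C' : ℝ := max C 1 with hC'
  have hC'1 : 1 ≤ C' := le_max_right _ _
  have hC'0 : 0 < C' := by linarith
  set r : ℝ := (C' ^ 2)⁻¹ with hr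
  have hr0 : 0 < r := by positivity
  have hr1 : r ≤ 1 := by
    rw [hr]
    exact inv_le_one_of_one_le₀ (one_le_pow₀ hC'1)
  let a : ℕ → P.toStarSubalgebra := fun n => (r : ℂ) • (star (x n) * x n)
  have hav : ∀ n, (a n : H →L[ℂ] H) = (r : ℂ) • ((star (x n) * x n : P.toStarSubalgebra) :
      H →L[ℂ] H) := fun n => rfl
  have hnn : ∀ n, (0 : H →L[ℂ] H) ≤ ((star (x n) * x n : P.toStarSubalgebra) : H →L[ℂ] H) :=
    fun n => star_mul_self_nonneg (x n : H →L[ℂ] H)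
  have hrC : (0 : ℂ) ≤ (r : ℂ) := by exact_mod_cast hr0.le
  have h0 : ∀ n, 0 ≤ (a n : H →L[ℂ] H) := by
    intro n
    rw [hav]
    rw [ContinuousLinearMap.nonneg_iff_isPositive]
    exact ((ContinuousLinearMap.nonneg_iff_isPositive _).mp (hnn n)).smul_of_nonneg hrC
  have h1 : ∀ n, (a n : H →L[ℂ] H) ≤ 1 := by
    intro n
    rw [← CStarAlgebra.norm_le_one_iff_of_nonneg _ (h0 n), hav, norm_smul]
    have h2 : ‖((star (x n) * x n : P.toStarSubalgebra) : H →L[ℂ] H)‖ ≤ C' ^ 2 := by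
      change ‖star (x n : H →L[ℂ] H) * (x n : H →L[ℂ] H)‖ ≤ C' ^ 2
      rw [CStarRing.norm_star_mul_self, ← sq]
      have : ‖(x n : H →L[ℂ] H)‖ ≤ C' := (hxC n).trans (le_max_left _ _)
      gcongr
    have h3 : ‖(r : ℂ)‖ = r := by
      rw [Complex.norm_real, Real.norm_of_nonneg hr0.le]
    rw [h3]
    calc r * ‖((star (x n) * x n : P.toStarSubalgebra) : H →L[ℂ] H)‖ ≤ r * C' ^ 2 := by gcongr
      _ = 1 := by rw [hr]; field_simp
  have hsmall : ∀ n, RCLike.re (inner ℂ ((a n : H →L[ℂ] H) ξ) ξ) ≤ (1 / 2 : ℝ) ^ n := by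
    intro n
    have e1 : RCLike.re (inner ℂ ((a n : H →L[ℂ] H) ξ) ξ) = r * ‖(x n : H →L[ℂ] H) ξ‖ ^ 2 := by
      rw [hav, ← re_inner_star_mul_self]
      change RCLike.re (inner ℂ ((r : ℂ) • (((star (x n) * x n : P.toStarSubalgebra) :
        H →L[ℂ] H) ξ)) ξ) = _
      rw [inner_smul_left, Complex.conj_ofReal]
      exact Complex.re_ofReal_mul _ _
    rw [e1]
    have e2 : ‖(x n : H →L[ℂ] H) ξ‖ ^ 2 ≤ (1 / 2 : ℝ) ^ n := by
      have e3 : ((1 / 2 : ℝ) ^ n) ≤ 1 := pow_le_one₀ (by norm_num) (by norm_num)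
      calc ‖(x n : H →L[ℂ] H) ξ‖ ^ 2 ≤ ((1 / 2 : ℝ) ^ n) ^ 2 := by
            have := hxξ n
            gcongr
        _ = ((1 / 2 : ℝ) ^ n) * ((1 / 2 : ℝ) ^ n) := by ring
        _ ≤ ((1 / 2 : ℝ) ^ n) * 1 := by gcongr
        _ = _ := mul_one _
    calc r * ‖(x n : H →L[ℂ] H) ξ‖ ^ 2 ≤ 1 * (1 / 2 : ℝ) ^ n := by gcongr
      _ = _ := one_mul _
  have hbig : ∀ n, r * ε ^ 2 ≤ RCLike.re (inner ℂ ((θ (a n) : K →L[ℂ] K) η) η) := by
    intro n
    have e0 : θ (a n) = (r : ℂ) • (star (θ (x n)) * θ (x n)) := by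
      rw [← map_star, ← map_mul, ← map_smul]
    have e1 : RCLike.re (inner ℂ ((θ (a n) : K →L[ℂ] K) η) η) =
        r * ‖(θ (x n) : K →L[ℂ] K) η‖ ^ 2 := by
      rw [e0, ← re_inner_star_mul_self]
      change RCLike.re (inner ℂ ((r : ℂ) • (((star (θ (x n)) * θ (x n) : N.toStarSubalgebra) :
        K →L[ℂ] K) η)) η) = _
      rw [inner_smul_left, Complex.conj_ofReal]
      exact Complex.re_ofReal_mul _ _
    rw [e1]
    have := (hxη n).le
    gcongr
  exact core θ ξ η hξ a h0 h1 hsmall (r * ε ^ 2) (by positivity) hbig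

end MPc72427.K
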