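import Mathlib

/-!
# Monotone limits in a von Neumann algebra (MP_c72427_an)

An increasing sequence of operators `0 ≤ b n ≤ 1` converges strongly, its limit is the least
upper bound, and it lies in every von Neumann algebra which contains the terms.
-/

set_option autoImplicit false

open Filter Topology
open scoped InnerProductSpace ComplexOrder

namespace MPc72427.K

variable {H : Type*} [NormedAddCommGroup H] [InnerProductSpace ℂ H] [CompleteSpace H]

/-- Cauchy-Schwarz for a positive operator. -/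
theorem norm_sq_le_of_pos (T : H →L[ℂ] H) (hT : 0 ≤ T) (x : H) :
    ‖T x‖ ^ 2 ≤ ‖T‖ * RCLike.re (inner ℂ (T x) x) := by
  set S := CFC.sqrt T with hS
  have hSS : S * S = T := CFC.sqrt_mul_sqrt_self T hT
  have hS0 : 0 ≤ S := CFC.sqrt_nonneg T
  have hsa : IsSelfAdjoint S := IsSelfAdjoint.of_nonneg hS0
  have hn : ‖S‖ * ‖S‖ = ‖T‖ := by
    have := CStarRing.norm_star_mul_self (x := S)
    rw [hsa.star_eq, hSS] at this
    exact this.symm
  have h1 : T x = S (S x) := by rw [← hSS]; rfl
  have h2 : RCLike.re (inner ℂ (T x) x) = ‖S x‖ ^ 2 := by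
    rw [h1, ← ContinuousLinearMap.adjoint_inner_right,
      ← ContinuousLinearMap.star_eq_adjoint, hsa.star_eq, inner_self_eq_norm_sq]
  rw [h2, h1]
  calc ‖S (S x)‖ ^ 2 ≤ (‖S‖ * ‖S x‖) ^ 2 := by
        gcongr
        exact S.le_opNorm _
    _ = ‖T‖ * ‖S x‖ ^ 2 := by rw [← hn]; ring

omit [CompleteSpace H] in
/-- the order in terms of quadratic forms -/
theorem re_inner_mono {S T : H →L[ℂ] H} (h : S ≤ T) (x : H) :
    RCLike.re (inner ℂ (S x) x) ≤ RCLike.re (inner ℂ (T x) x) := by
  have h1 : (T - S).IsPositive := h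
  have h2 := h1.re_inner_nonneg_left x
  simp only [sub_apply, inner_sub_left, map_sub] at h2
  linarith

/-- A positive operator with `⟪T x, x⟫ = 0` kills `x`. -/
theorem apply_eq_zero_of_pos (T : H →L[ℂ] H) (hT : 0 ≤ T) (x : H)
    (h : RCLike.re (inner ℂ (T x) x) ≤ 0) : T x = 0 := by
  have h1 := norm_sq_le_of_pos T hT x
  have h2 : ‖T x‖ ^ 2 ≤ 0 := h1.trans (mul_nonpos_of_nonneg_of_nonpos (norm_nonneg _) h)
  have h3 : ‖T x‖ = 0 := by nlinarith [norm_nonneg (T x)]
  simpa using h3

/-- Monotone convergence. -/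
theorem exists_strong_limit (b : ℕ → H →L[ℂ] H) (hb : Monotone b) (h0 : ∀ n, 0 ≤ b n)
    (h1 : ∀ n, b n ≤ 1) :
    ∃ T : H →L[ℂ] H, (∀ x, Tendsto (fun n => b n x) atTop (𝓝 (T x))) ∧ (∀ n, b n ≤ T) ∧
      ∀ S : H →L[ℂ] H, (∀ n, b n ≤ S) → T ≤ S := by
  have hnb : ∀ n, ‖b n‖ ≤ 1 := fun n =>
    (CStarAlgebra.norm_le_one_iff_of_nonneg (b n) (h0 n)).mpr (h1 n)
  have hbound : ∀ n x, RCLike.re (inner ℂ (b n x) x) ≤ ‖x‖ ^ 2 := by
    intro n x
    have h := re_inner_mono (h1 n) x
    change RCLike.re (inner ℂ (b n x) x) ≤ RCLike.re (inner ℂ x x) at h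
    rw [inner_self_eq_norm_sq] at h
    exact h
  have hcau : ∀ x, CauchySeq fun n => b n x := by
    intro x
    have hmono : Monotone fun n => RCLike.re (inner ℂ (b n x) x) :=
      fun m n hmn => re_inner_mono (hb hmn) x
    have hconv := tendsto_atTop_ciSup hmono ⟨‖x‖ ^ 2, by rintro _ ⟨n, rfl⟩; exact hbound n x⟩
    have hC : CauchySeq fun n => RCLike.re (inner ℂ (b n x) x) := hconv.cauchySeq
    rw [Metric.cauchySeq_iff'] at hC ⊢
    intro ε hε
    obtain ⟨N, hN⟩ := hC (ε ^ 2) (by positivity)
    refine ⟨N, fun n hn => ?_⟩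
    have hle : b N ≤ b n := hb hn
    have hpos : 0 ≤ b n - b N := sub_nonneg.mpr hle
    have hle1 : b n - b N ≤ 1 := by
      have h3 : b n - b N ≤ b n := by
        have := h0 N
        exact sub_le_self _ this
      exact h3.trans (h1 n)
    have hn1 : ‖b n - b N‖ ≤ 1 :=
      (CStarAlgebra.norm_le_one_iff_of_nonneg _ hpos).mpr hle1
    have h4 := norm_sq_le_of_pos _ hpos x
    have h5 : RCLike.re (inner ℂ ((b n - b N) x) x) < ε ^ 2 := by
      have := hN n hn
      rw [Real.dist_eq] at this
      have h6 := (abs_lt.mp this).2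
      simpa [inner_sub_left] using h6
    have h7 : 0 ≤ RCLike.re (inner ℂ ((b n - b N) x) x) :=
      ((ContinuousLinearMap.nonneg_iff_isPositive _).mp hpos).re_inner_nonneg_left x
    have h8 : ‖(b n - b N) x‖ ^ 2 < ε ^ 2 := by nlinarith [norm_nonneg (b n - b N)]
    rw [dist_eq_norm]
    exact lt_of_pow_lt_pow_left₀ 2 hε.le (by simpa using h8)
  choose f hf using fun x => cauchySeq_tendsto_of_complete (hcau x)
  let T0 : H →ₗ[ℂ] H :=
    { toFun := f
      map_add' := fun x y => tendsto_nhds_unique (hf (x + y))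
        (by simpa using (hf x).add (hf y))
      map_smul' := fun c x => tendsto_nhds_unique (hf (c • x))
        (by simpa using (hf x).const_smul c) }
  have hT0 : ∀ x, ‖T0 x‖ ≤ 1 * ‖x‖ := by
    intro x
    refine le_of_tendsto (hf x).norm (Eventually.of_forall fun n => ?_)
    exact (b n).le_of_opNorm_le (hnb n) x
  let T : H →L[ℂ] H := T0.mkContinuous 1 hT0
  have hT : ∀ x, Tendsto (fun n => b n x) atTop (𝓝 (T x)) := hf
  have key : ∀ x, Tendsto (fun n => inner ℂ (b n x) x) atTop (𝓝 (inner ℂ (T x) x)) :=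
    fun x => (hT x).inner tendsto_const_nhds
  have sa : ∀ x, inner ℂ (T x) x = inner ℂ x (T x) := by
    intro x
    refine tendsto_nhds_unique (key x) ?_
    have : Tendsto (fun n => inner ℂ x (b n x)) atTop (𝓝 (inner ℂ x (T x))) :=
      tendsto_const_nhds.inner (hT x)
    refine this.congr fun n => ?_
    have h := ((ContinuousLinearMap.nonneg_iff_isPositive _).mp (h0 n)).inner_left_eq_inner_right x x
    exact h.symm
  refine ⟨T, hT, ?_, ?_⟩
  · intro n
    show (T - b n).IsPositive
    rw [ContinuousLinearMap.isPositive_iff_complex]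
    intro x
    have hl : Tendsto (fun m => inner ℂ ((b m - b n) x) x) atTop
        (𝓝 (inner ℂ ((T - b n) x) x)) := by
      simpa [inner_sub_left] using (key x).sub_const (inner ℂ (b n x) x)
    have hev : ∀ᶠ m in atTop, 0 ≤ inner ℂ ((b m - b n) x) x := by
      filter_upwards [eventually_ge_atTop n] with m hm
      have : (b m - b n).IsPositive := hb hm
      exact this.inner_nonneg_left x
    have h := ge_of_tendsto hl hev
    rw [Complex.le_def] at h
    refine ⟨?_, by have h9 := h.1; rwa [Complex.zero_re] at h9⟩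
    apply Complex.ext
    · simp only [Complex.ofReal_re]; rfl
    · have h9 := h.2
      rw [Complex.zero_im] at h9
      rw [Complex.ofReal_im]
      exact h9
  · intro S hS
    show (S - T).IsPositive
    rw [ContinuousLinearMap.isPositive_iff_complex]
    intro x
    have hl : Tendsto (fun m => inner ℂ ((S - b m) x) x) atTop
        (𝓝 (inner ℂ ((S - T) x) x)) := by
      simpa [inner_sub_left] using (key x).const_sub (inner ℂ (S x) x)
    have hev : ∀ m, 0 ≤ inner ℂ ((S - b m) x) x := by
      intro m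
      have : (S - b m).IsPositive := hS m
      exact this.inner_nonneg_left x
    have h := ge_of_tendsto' hl hev
    rw [Complex.le_def] at h
    refine ⟨?_, by have h9 := h.1; rwa [Complex.zero_re] at h9⟩
    apply Complex.ext
    · simp only [Complex.ofReal_re]; rfl
    · have h9 := h.2
      rw [Complex.zero_im] at h9
      rw [Complex.ofReal_im]
      exact h9

/-- A strong limit of elements of a von Neumann algebra lies in it. -/
theorem mem_of_strong_limit (P : VonNeumannAlgebra H) (b : ℕ → H →L[ℂ] H) (hb : ∀ n, b n ∈ P)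
    (T : H →L[ℂ] H) (hT : ∀ x, Tendsto (fun n => b n x) atTop (𝓝 (T x))) : T ∈ P := by
  rw [← VonNeumannAlgebra.commutant_commutant P, VonNeumannAlgebra.mem_commutant_iff]
  intro g hg
  rw [VonNeumannAlgebra.mem_commutant_iff] at hg
  ext x
  have h1 : Tendsto (fun n => g (b n x)) atTop (𝓝 (g (T x))) :=
    (g.continuous.tendsto _).comp (hT x)
  have h2 : Tendsto (fun n => b n (g x)) atTop (𝓝 (T (g x))) := hT (g x)
  have h3 : (fun n => g (b n x)) = fun n => b n (g x) := by
    funext n
    have := hg (b n) (hb n)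
    exact (congrArg (fun S : H →L[ℂ] H => S x) this).symm
  rw [h3] at h1
  exact tendsto_nhds_unique h1 h2

end MPc72427.K
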